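import Pool.Agent.H140.TH.Chain
import Pool.Agent.H140.TH.Tiling
import Pool.Agent.H140.TH.Disk

/-!
# A patch of triangles and hexagons that extends to a tiling but to no convex patch

The definitions (`tri`, `hex`, `IsTri`, `IsHex`, `EdgeToEdge`, `region`, `IsFamily`, `IsPatch`,
`IsTiling`) are in `Pool.Agent.H140.TH.Defs`.  Tiles are regular triangles and hexagons with sides
of length one, given by their vertex sets.

The patch has five tiles: a hexagon and two rhombi, each consisting of two triangles.  It is part of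
a tiling of the plane with exactly two triangles and two hexagons at every vertex, but of no convex
patch.

Idea: a *mirror line* is a line of unit edges which separate, alternately, two triangles and two
hexagons.  Inside a convex patch a mirror line can only end at a corner of angle 120 degrees between
two triangles, so the patch lies in the cone of opening 120 degrees around the line, with this
corner as its apex.  Two parallel mirror lines cannot both end in this way at their left ends.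
-/

namespace Pool.Agent.Results.MP_12bd27_co.FiveTilePatch

open Set MeasureTheory Pool.Agent.H140.TH

/-- the five tiles -/
noncomputable def A : Set (Set ℂ) := {TH 0 0, TD 0 0, TU 0 1, TU 0 0, TD 0 (-1)}

lemma A_sub : A ⊆ F := by
  rintro V (rfl | rfl | rfl | rfl | rfl)
  · exact ⟨0, 0, Or.inl rfl⟩
  · exact ⟨0, 0, Or.inr (Or.inl rfl)⟩
  · exact ⟨0, 1, Or.inr (Or.inr rfl)⟩
  · exact ⟨0, 0, Or.inr (Or.inr rfl)⟩
  · exact ⟨0, -1, Or.inr (Or.inl rfl)⟩

/-- the parallelogram-like pieces -/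
def K₂ : Set ℂ := ({z | (0 : ℝ) ≤ bb z} ∩ {z | bb z ≤ (1 : ℝ)}) ∩
  ({z | (-1 : ℝ) ≤ hh z} ∩ {z | (bb + hh) z ≤ (2 : ℝ)})

def K₃ : Set ℂ := ({z | (0 : ℝ) ≤ (bb + hh) z} ∩ {z | (bb + hh) z ≤ (1 : ℝ)}) ∩
  ({z | hh z ≤ (1 : ℝ)} ∩ {z | bb z ≤ (2 : ℝ)})

lemma region_A : region A = convexHull ℝ (TH 0 0) ∪ K₂ ∪ K₃ := by
  have e : region A = convexHull ℝ (TH 0 0) ∪ (convexHull ℝ (TD 0 0) ∪ (convexHull ℝ (TU 0 1) ∪
      (convexHull ℝ (TU 0 0) ∪ convexHull ℝ (TD 0 (-1))))) := by
    unfold region A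
    simp only [biUnion_insert, biUnion_singleton]
  rw [e]
  ext z
  simp only [mem_union, hTH, hTD, hTU, K₂, K₃, mem_inter_iff, mem_ofPred_eq, LinearMap.add_apply]
  push_cast
  set X := bb z
  set Y := hh z
  constructor
  · rintro (h | h | h | h | h)
    · left; left; refine ⟨⟨?_, ?_⟩, ⟨?_, ?_⟩, ?_, ?_⟩ <;> linarith
    · left; right; refine ⟨⟨?_, ?_⟩, ?_, ?_⟩ <;> linarith
    · left; right; refine ⟨⟨?_, ?_⟩, ?_, ?_⟩ <;> linarith
    · right; refine ⟨⟨?_, ?_⟩, ?_, ?_⟩ <;> linarith
    · right; refine ⟨⟨?_, ?_⟩, ?_, ?_⟩ <;> linarith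
  · rintro ((h | h) | h)
    · left; refine ⟨⟨?_, ?_⟩, ⟨?_, ?_⟩, ?_, ?_⟩ <;> linarith
    · rcases le_total 1 Y with h1 | h1
      · right; right; left; refine ⟨?_, ?_, ?_⟩ <;> linarith
      · rcases le_total 1 (X + Y) with h2 | h2
        · right; left; refine ⟨?_, ?_, ?_⟩ <;> linarith
        · left; refine ⟨⟨?_, ?_⟩, ⟨?_, ?_⟩, ?_, ?_⟩ <;> linarith
    · rcases le_total 1 X with h1 | h1
      · rcases le_total (-1) Y with h2 | h2
        · right; right; right; left; refine ⟨?_, ?_, ?_⟩ <;> linarith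
        · right; right; right; right; refine ⟨?_, ?_, ?_⟩ <;> linarith
      · left; refine ⟨⟨?_, ?_⟩, ⟨?_, ?_⟩, ?_, ?_⟩ <;> linarith

lemma bb_cont : Continuous bb := bb.continuous_of_finiteDimensional
lemma hh_cont : Continuous hh := hh.continuous_of_finiteDimensional

lemma norm_le_of (z : ℂ) (R : ℝ) (h1 : |bb z| ≤ R) (h2 : |hh z| ≤ R) : ‖z‖ ≤ 2 * R := by
  rw [coords z]
  refine (norm_add_le _ _).trans ?_
  rw [norm_mul, norm_w, mul_one, Complex.norm_real, Complex.norm_real, Real.norm_eq_abs,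
    Real.norm_eq_abs]
  linarith

lemma K₂_convex : Convex ℝ K₂ :=
  ((convex_halfSpace_ge bb.isLinear _).inter (convex_halfSpace_le bb.isLinear _)).inter
    ((convex_halfSpace_ge hh.isLinear _).inter (convex_halfSpace_le (bb + hh).isLinear _))

lemma K₃_convex : Convex ℝ K₃ :=
  ((convex_halfSpace_ge (bb + hh).isLinear _).inter (convex_halfSpace_le (bb + hh).isLinear _)).inter
    ((convex_halfSpace_le hh.isLinear _).inter (convex_halfSpace_le bb.isLinear _))

lemma bh_cont : Continuous (bb + hh) := (bb + hh).continuous_of_finiteDimensional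

lemma K₂_compact : IsCompact K₂ := by
  refine Metric.isCompact_of_isClosed_isBounded ?_ ?_
  · exact ((isClosed_le continuous_const bb_cont).inter (isClosed_le bb_cont continuous_const)).inter
      ((isClosed_le continuous_const hh_cont).inter (isClosed_le bh_cont continuous_const))
  · refine (Metric.isBounded_closedBall (x := (0 : ℂ)) (r := 4)).subset ?_
    rintro z ⟨⟨h1, h2⟩, h3, h4⟩
    simp only [mem_ofPred_eq, LinearMap.add_apply] at h1 h2 h3 h4
    rw [Metric.mem_closedBall, dist_zero_right]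
    have := norm_le_of z 2 (abs_le.2 ⟨by linarith, by linarith⟩) (abs_le.2 ⟨by linarith, by linarith⟩)
    linarith

lemma K₃_compact : IsCompact K₃ := by
  refine Metric.isCompact_of_isClosed_isBounded ?_ ?_
  · exact ((isClosed_le continuous_const bh_cont).inter (isClosed_le bh_cont continuous_const)).inter
      ((isClosed_le hh_cont continuous_const).inter (isClosed_le bb_cont continuous_const))
  · refine (Metric.isBounded_closedBall (x := (0 : ℂ)) (r := 4)).subset ?_
    rintro z ⟨⟨h1, h2⟩, h3, h4⟩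
    simp only [mem_ofPred_eq, LinearMap.add_apply] at h1 h2 h3 h4
    rw [Metric.mem_closedBall, dist_zero_right]
    have := norm_le_of z 2 (abs_le.2 ⟨by linarith, by linarith⟩) (abs_le.2 ⟨by linarith, by linarith⟩)
    linarith

lemma bb_half : bb (1 / 2) = 1 / 2 := by rw [bb_apply]; norm_num
lemma hh_half : hh (1 / 2) = 0 := by rw [hh_apply]; norm_num

lemma nhds_of {K : Set ℂ} (U : Set ℂ) (hU : IsOpen U) (h : (1 / 2 : ℂ) ∈ U) (hUK : U ⊆ K) :
    K ∈ nhds (1 / 2 : ℂ) := Filter.mem_of_superset (hU.mem_nhds h) hUK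

lemma nhds_TH : convexHull ℝ (TH 0 0) ∈ nhds (1 / 2 : ℂ) := by
  refine nhds_of ((({z | (-1 : ℝ) < bb z} ∩ {z | bb z < (1 : ℝ)}) ∩
    ({z | (-1 : ℝ) < hh z} ∩ {z | hh z < (1 : ℝ)})) ∩
    ({z | (-1 : ℝ) < (bb + hh) z} ∩ {z | (bb + hh) z < (1 : ℝ)})) ?_ ?_ ?_
  · exact (((isOpen_lt continuous_const bb_cont).inter (isOpen_lt bb_cont continuous_const)).inter
      ((isOpen_lt continuous_const hh_cont).inter (isOpen_lt hh_cont continuous_const))).inter
      ((isOpen_lt continuous_const bh_cont).inter (isOpen_lt bh_cont continuous_const))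
  · simp only [mem_inter_iff, mem_ofPred_eq, LinearMap.add_apply, bb_half, hh_half]
    norm_num
  · rintro z ⟨⟨⟨h1, h2⟩, h3, h4⟩, h5, h6⟩
    simp only [mem_ofPred_eq, LinearMap.add_apply] at h1 h2 h3 h4 h5 h6
    rw [hTH]
    push_cast
    refine ⟨⟨?_, ?_⟩, ⟨?_, ?_⟩, ?_, ?_⟩ <;> linarith

lemma nhds_K₂ : K₂ ∈ nhds (1 / 2 : ℂ) := by
  refine nhds_of (({z | (0 : ℝ) < bb z} ∩ {z | bb z < (1 : ℝ)}) ∩
    ({z | (-1 : ℝ) < hh z} ∩ {z | (bb + hh) z < (2 : ℝ)})) ?_ ?_ ?_
  · exact ((isOpen_lt continuous_const bb_cont).inter (isOpen_lt bb_cont continuous_const)).inter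
      ((isOpen_lt continuous_const hh_cont).inter (isOpen_lt bh_cont continuous_const))
  · simp only [mem_inter_iff, mem_ofPred_eq, LinearMap.add_apply, bb_half, hh_half]
    norm_num
  · rintro z ⟨⟨h1, h2⟩, h3, h4⟩
    simp only [mem_ofPred_eq] at h1 h2 h3 h4
    refine ⟨⟨?_, ?_⟩, ?_, ?_⟩
    · exact h1.le
    · exact h2.le
    · exact h3.le
    · exact h4.le

lemma nhds_K₃ : K₃ ∈ nhds (1 / 2 : ℂ) := by
  refine nhds_of (({z | (0 : ℝ) < (bb + hh) z} ∩ {z | (bb + hh) z < (1 : ℝ)}) ∩
    ({z | hh z < (1 : ℝ)} ∩ {z | bb z < (2 : ℝ)})) ?_ ?_ ?_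
  · exact ((isOpen_lt continuous_const bh_cont).inter (isOpen_lt bh_cont continuous_const)).inter
      ((isOpen_lt hh_cont continuous_const).inter (isOpen_lt bb_cont continuous_const))
  · simp only [mem_inter_iff, mem_ofPred_eq, LinearMap.add_apply, bb_half, hh_half]
    norm_num
  · rintro z ⟨⟨h1, h2⟩, h3, h4⟩
    simp only [mem_ofPred_eq] at h1 h2 h3 h4
    refine ⟨⟨?_, ?_⟩, ?_, ?_⟩
    · exact h1.le
    · exact h2.le
    · exact h3.le
    · exact h4.le

lemma A_patch : IsPatch A where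
  toIsFamily := F_isFamily.mono A_sub
  finite := by unfold A; exact Set.toFinite _
  disk := by
    rw [region_A]
    refine disk_union (1 / 2) (convex_convexHull ℝ _) K₂_convex K₃_convex ?_ K₂_compact K₃_compact
      nhds_TH nhds_K₂ nhds_K₃
    exact (hex_finite _ _).isCompact_convexHull ℝ
  tris := sub_tris A_sub
  hexs := sub_hexs A_sub

lemma TT_up {P : Set (Set ℂ)} (h : A ⊆ P) : TT P (L 0 1) := by
  constructor
  · have e : tri (L 0 1) 1 = TU 0 1 := by
      have := tri_rot' (L 0 1) 1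
      rw [← this]
      unfold TU L
      push_cast
      congr 1 <;> ring
    rw [e]; exact h (by simp [A])
  · have e : tri (L 0 1 + 1) (-1) = TD 0 0 := by
      have := tri_rot' (L 0 1 + 1) (-1)
      rw [← this]
      unfold TD L
      push_cast
      congr 1 <;> ring
    rw [e]; exact h (by simp [A])

lemma TT_down {P : Set (Set ℂ)} (h : A ⊆ P) : TT P (L 1 (-1)) := by
  constructor
  · have e : tri (L 1 (-1)) 1 = TU 0 0 := by
      have := tri_rot' (L 1 (-1)) 1
      rw [← this]
      unfold TU L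
      push_cast
      congr 1 <;> ring
    rw [e]; exact h (by simp [A])
  · have e : tri (L 1 (-1) + 1) (-1) = TD 0 (-1) := by
      have := tri_rot' (L 1 (-1) + 1) (-1)
      rw [← this]
      unfold TD L
      push_cast
      congr 1 <;> ring
    rw [e]; exact h (by simp [A])

/-- **Theorem.**  There is a patch of five tiles that extends to a tiling of the plane (with exactly
two triangles and two hexagons at every vertex), but is contained in no convex patch. -/
theorem result : ∃ A : Set (Set ℂ), IsPatch A ∧ A.ncard = 5 ∧ (∃ F : Set (Set ℂ), IsTiling F ∧ A ⊆ F) ∧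
    ¬ ∃ B : Set (Set ℂ), IsPatch B ∧ A ⊆ B ∧ Convex ℝ (region B) := by
  refine ⟨A, A_patch, ?_, ⟨F, F_isTiling, A_sub⟩, ?_⟩
  · have h1 : TH 0 0 ∉ ({TD 0 0, TU 0 1, TU 0 0, TD 0 (-1)} : Set (Set ℂ)) := by
      rintro (h | h | h | h)
      · exact not_tri_hex (isTri_TD 0 0) (h ▸ isHex_TH 0 0)
      · exact not_tri_hex (isTri_TU 0 1) (h ▸ isHex_TH 0 0)
      · exact not_tri_hex (isTri_TU 0 0) (h ▸ isHex_TH 0 0)
      · exact not_tri_hex (isTri_TD 0 (-1)) (h ▸ isHex_TH 0 0)
    have h2 : TD 0 0 ∉ ({TU 0 1, TU 0 0, TD 0 (-1)} : Set (Set ℂ)) := by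
      have hm : L 1 0 ∈ TD 0 0 := by rw [mTD]; omega
      rintro (h | h | h)
      · rw [h, mTU] at hm; omega
      · have hm' : L 1 1 ∈ TD 0 0 := by rw [mTD]; omega
        rw [h, mTU] at hm'; omega
      · rw [h, mTD] at hm; omega
    have h3 : TU 0 1 ∉ ({TU 0 0, TD 0 (-1)} : Set (Set ℂ)) := by
      have hm : L 0 2 ∈ TU 0 1 := by rw [mTU]; omega
      rintro (h | h)
      · rw [h, mTU] at hm; omega
      · rw [h, mTD] at hm; omega
    have h4 : TU 0 0 ≠ TD 0 (-1) := by
      have hm : L 1 0 ∈ TU 0 0 := by rw [mTU]; omega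
      intro h
      rw [h, mTD] at hm; omega
    unfold A
    rw [ncard_insert_of_notMem h1, ncard_insert_of_notMem h2, ncard_insert_of_notMem h3,
      ncard_pair h4]
  · rintro ⟨B, hB, hAB, hc⟩
    refine no_convex hB.toIsFamily hB.finite hB.tris hB.hexs hc (TT_up hAB) (TT_down hAB) ?_
    have hs := s3pos
    unfold L
    simp [w_im]
    intro h
    linarith

end Pool.Agent.Results.MP_12bd27_co.FiveTilePatch
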